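import Pool.Agent.Helper34.ST.Basic

/-!
# Balanced walks by multiplicative weights
-/

set_option autoImplicit false

namespace Pool.Agent.Helper34.ST

open Finset

/-- number of visits of `i` at the times of `(a, b]` -/
private noncomputable def ld {ι : Type} [DecidableEq ι] (W : ℕ → ι) (a b : ℕ) (i : ι) : ℕ :=
  ((Finset.Ico a b).filter (fun t => W (t + 1) = i)).card

private theorem ld_congr {ι : Type} [DecidableEq ι] {W W' : ℕ → ι} {a b : ℕ}
    (h : ∀ t, a < t → t ≤ b → W' t = W t) (i : ι) : ld W' a b i = ld W a b i := by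
  unfold ld
  congr 1
  apply Finset.filter_congr
  intro t ht
  rw [Finset.mem_Ico] at ht
  rw [h (t + 1) (by omega) (by omega)]

private theorem ld_add {ι : Type} [DecidableEq ι] (W : ℕ → ι) {a b c : ℕ} (h1 : a ≤ b) (h2 : b ≤ c)
    (i : ι) : ld W a c i = ld W a b i + ld W b c i := by
  unfold ld
  rw [← Finset.Ico_union_Ico_eq_Ico h1 h2, Finset.filter_union, Finset.card_union_of_disjoint]
  exact Finset.disjoint_filter_filter (Finset.Ico_disjoint_Ico_consecutive a b c)

private theorem ld_le {ι : Type} [DecidableEq ι] (W : ℕ → ι) (a b : ℕ) (i : ι) :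
    ld W a b i ≤ b - a := by
  unfold ld
  calc _ ≤ (Finset.Ico a b).card := Finset.card_filter_le _ _
    _ = b - a := Nat.card_Ico a b

private theorem cost_ld {ι : Type} [Fintype ι] [DecidableEq ι] (z : ι → ℝ) (W : ℕ → ι) (a b : ℕ) :
    cost z W a b = ∑ i, z i * (ld W a b i : ℝ) := by
  unfold cost ld
  rw [← Finset.sum_fiberwise (Finset.Ico a b) (fun t => W (t + 1))]
  refine Finset.sum_congr rfl fun i _ => ?_
  have : ∀ t ∈ (Finset.Ico a b).filter (fun t => W (t + 1) = i), z (W (t + 1)) = z i := by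
    intro t ht
    rw [(Finset.mem_filter.1 ht).2]
  rw [Finset.sum_congr rfl this, Finset.sum_const, nsmul_eq_mul, mul_comm]

private theorem exp_chord {b l a : ℝ} (hl : 0 < l) (ha : 0 ≤ a) (hal : a ≤ l) :
    Real.exp (b * a) ≤ 1 + a / l * (Real.exp (b * l) - 1) := by
  have hconv := convexOn_exp.2 (Set.mem_univ (0 : ℝ)) (Set.mem_univ (b * l))
    (show 0 ≤ 1 - a / l by
      rw [sub_nonneg]
      exact (div_le_one hl).2 hal)
    (show 0 ≤ a / l from div_nonneg ha hl.le) (by ring)
  simp only [smul_eq_mul, mul_zero, zero_add, Real.exp_zero, mul_one] at hconv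
  have e : a / l * (b * l) = b * a := by
    field_simp
  rw [e] at hconv
  linarith

theorem st_HEDGE : ST_HEDGE := by
  classical
  intro ι _ _ r hWide η hη
  obtain ⟨η0, hη0, hη01, hη0η⟩ : ∃ η0 : ℝ, 0 < η0 ∧ η0 ≤ 1 ∧ η0 ≤ η :=
    ⟨min η 1, lt_min hη one_pos, min_le_right _ _, min_le_left _ _⟩
  obtain ⟨η1, hη1⟩ : ∃ η1 : ℝ, η1 = η0 / 4 := ⟨_, rfl⟩
  have hη1p : 0 < η1 := by rw [hη1]; positivity
  have hη1q : η1 ≤ 1 / 4 := by rw [hη1]; linarith
  obtain ⟨l, C, hl, hex, hmain⟩ := hWide η1 hη1p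
  have hlp : (0 : ℝ) < (l : ℝ) := by exact_mod_cast hl
  obtain ⟨β, hβ⟩ : ∃ β : ℝ, β = η1 / l := ⟨_, rfl⟩
  have hβp : 0 < β := by rw [hβ]; positivity
  have hβl : β * l = η1 := by rw [hβ]; field_simp
  obtain ⟨G, hG⟩ : ∃ G : ℝ, G = Real.exp (β * l) - 1 := ⟨_, rfl⟩
  have hG0 : 0 ≤ G := by
    rw [hG, hβl, sub_nonneg]
    exact Real.one_le_exp hη1p.le
  have hG1 : G ≤ (1 + η1) * (β * l) := by
    rw [hG, hβl]
    have h1 : |Real.exp η1 - 1 - η1| ≤ η1 ^ 2 := by
      apply Real.abs_exp_sub_one_sub_id_le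
      rw [abs_of_pos hη1p]
      linarith
    have h2 := (abs_le.1 h1).2
    nlinarith [h2]
  obtain ⟨m, hm⟩ : ∃ m : ℝ, m = (Fintype.card ι : ℝ) := ⟨_, rfl⟩
  have hm1 : 1 ≤ m := by
    rw [hm]
    exact_mod_cast Fintype.card_pos
  refine ⟨⌈Real.log m / β⌉₊ + l + 1, ?_⟩
  intro d hd hWt σ k
  obtain ⟨u0, hu0, hu0C⟩ := hex ⟨d, hd, hWt⟩
  obtain ⟨X, hX⟩ : ∃ X : ℝ, X = G * (1 + η1) / (2 * d) := ⟨_, rfl⟩
  have key : ∀ q : ℕ, ∃ (W : ℕ → ι) (u : ℤ → ι), Walk r σ 0 (q * l) W ∧ Dir r u ∧ (∀ i, u i ∈ C) ∧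
      W (q * l) = u (ht σ (q * l)) ∧
      ∑ i, Real.exp (β * (ld W 0 (q * l) i : ℝ)) ≤ m * Real.exp (q * X) := by
    intro q
    induction q with
    | zero =>
      refine ⟨fun t => u0 (ht σ t), u0, walk_dir hu0 σ _ _, hu0, hu0C, rfl, ?_⟩
      have e : ∀ i : ι, Real.exp (β * (ld (fun t => u0 (ht σ t)) 0 (0 * l) i : ℝ)) = 1 := by
        intro i
        have h0 : ld (fun t => u0 (ht σ t)) 0 (0 * l) i = 0 := by
          have := ld_le (fun t => u0 (ht σ t)) 0 (0 * l) i
          omega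
        rw [h0, Nat.cast_zero, mul_zero, Real.exp_zero]
      rw [Finset.sum_congr rfl (fun i _ => e i), Finset.sum_const, Finset.card_univ, nsmul_eq_mul,
        mul_one, Nat.cast_zero, zero_mul, Real.exp_zero, mul_one, hm]
    | succ q ih =>
      obtain ⟨W, u, hW, hu, huC, hWu, hsum⟩ := ih
      obtain ⟨Φ, hΦ⟩ : ∃ Φ : ℝ, Φ = ∑ i, Real.exp (β * (ld W 0 (q * l) i : ℝ)) := ⟨_, rfl⟩
      have hΦp : 0 < Φ := by
        rw [hΦ]
        exact Finset.sum_pos (fun i _ => Real.exp_pos _) Finset.univ_nonempty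
      obtain ⟨z, hz⟩ : ∃ z : ι → ℝ, z = fun i => 2 * d * Real.exp (β * (ld W 0 (q * l) i : ℝ)) / Φ :=
        ⟨_, rfl⟩
      have hz0 : ∀ i, 0 ≤ z i := by
        intro i
        rw [hz]
        have := Real.exp_pos (β * (ld W 0 (q * l) i : ℝ))
        positivity
      have hzs : ∑ i, z i = 2 * d := by
        rw [hz]
        simp only
        rw [← Finset.sum_div, ← Finset.mul_sum, ← hΦ, mul_div_assoc, div_self hΦp.ne', mul_one]
      have hcst : Cst z d := ⟨hz0, hzs.le⟩
      obtain ⟨W', u', hu', hu'C, hW', hW'a, hW'b, hcost⟩ := hmain d hd hWt z hcst σ u (q * l) hu huC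
      have e1 : q * l + l = (q + 1) * l := by ring
      rw [e1] at hW' hW'b hcost
      have hle : q * l ≤ (q + 1) * l := by
        rw [← e1]
        omega
      obtain ⟨W2, hW2, hW2a, hW2b⟩ := cat (Nat.zero_le _) hle hW hW' (by rw [hWu, hW'a])
      refine ⟨W2, u', hW2, hu', hu'C, ?_, ?_⟩
      · rw [hW2b _ hle, hW'b]
      · have hL : ∀ i, ld W2 0 ((q + 1) * l) i = ld W 0 (q * l) i + ld W' (q * l) ((q + 1) * l) i := by
          intro i
          rw [ld_add W2 (Nat.zero_le _) hle i, ld_congr (fun t _ ht => hW2a t ht) i,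
            ld_congr (fun t ht _ => hW2b t ht.le) i]
        have hterm : ∀ i, Real.exp (β * (ld W2 0 ((q + 1) * l) i : ℝ)) ≤
            Real.exp (β * (ld W 0 (q * l) i : ℝ)) +
              G / l * (Φ / (2 * d)) * (z i * (ld W' (q * l) ((q + 1) * l) i : ℝ)) := by
          intro i
          obtain ⟨a, ha⟩ : ∃ a : ℝ, a = (ld W' (q * l) ((q + 1) * l) i : ℝ) := ⟨_, rfl⟩
          have ha0 : 0 ≤ a := by rw [ha]; positivity
          have hal : a ≤ l := by
            rw [ha]
            have := ld_le W' (q * l) ((q + 1) * l) i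
            rw [← e1] at this
            rw [← e1]
            have h2 : ld W' (q * l) (q * l + l) i ≤ l := by omega
            exact_mod_cast h2
          have hch := exp_chord (b := β) hlp ha0 hal
          rw [← hG] at hch
          rw [hL i, Nat.cast_add, ← ha, mul_add, Real.exp_add]
          have hE := Real.exp_pos (β * (ld W 0 (q * l) i : ℝ))
          have e2 : G / l * (Φ / (2 * d)) * (z i * a) =
              Real.exp (β * (ld W 0 (q * l) i : ℝ)) * (a / l * G) := by
            rw [hz]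
            simp only
            field_simp
          rw [e2]
          calc Real.exp (β * (ld W 0 (q * l) i : ℝ)) * Real.exp (β * a)
              ≤ Real.exp (β * (ld W 0 (q * l) i : ℝ)) * (1 + a / l * G) :=
                mul_le_mul_of_nonneg_left hch hE.le
            _ = _ := by ring
        have hstep : ∑ i, Real.exp (β * (ld W2 0 ((q + 1) * l) i : ℝ)) ≤ Φ * Real.exp X := by
          calc ∑ i, Real.exp (β * (ld W2 0 ((q + 1) * l) i : ℝ))
              ≤ ∑ i, (Real.exp (β * (ld W 0 (q * l) i : ℝ)) +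
                G / l * (Φ / (2 * d)) * (z i * (ld W' (q * l) ((q + 1) * l) i : ℝ))) :=
                Finset.sum_le_sum fun i _ => hterm i
            _ = Φ + G / l * (Φ / (2 * d)) * cost z W' (q * l) ((q + 1) * l) := by
                rw [Finset.sum_add_distrib, ← hΦ, ← Finset.mul_sum, ← cost_ld]
            _ ≤ Φ + G / l * (Φ / (2 * d)) * ((1 + η1) * l) := by
                have h0 : 0 ≤ G / l * (Φ / (2 * d)) := by positivity
                have := mul_le_mul_of_nonneg_left hcost h0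
                linarith
            _ = Φ * (X + 1) := by
                rw [hX]
                field_simp
                ring
            _ ≤ Φ * Real.exp X := mul_le_mul_of_nonneg_left (Real.add_one_le_exp X) hΦp.le
        calc ∑ i, Real.exp (β * (ld W2 0 ((q + 1) * l) i : ℝ)) ≤ Φ * Real.exp X := hstep
          _ ≤ m * Real.exp (q * X) * Real.exp X := by
              rw [hΦ]
              exact mul_le_mul_of_nonneg_right hsum (Real.exp_pos _).le
          _ = m * Real.exp ((q + 1 : ℕ) * X) := by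
              rw [mul_assoc, ← Real.exp_add]
              congr 2
              push_cast
              ring
  obtain ⟨W, u, hW, hu, huC, hWu, hsum⟩ := key (k / l)
  have hTk : k / l * l ≤ k := Nat.div_mul_le_self k l
  have hTk2 : k - k / l * l ≤ l := by
    have h1 := Nat.div_add_mod k l
    have h2 := Nat.mod_lt k (show 0 < l by omega)
    rw [mul_comm] at h1
    omega
  obtain ⟨W2, hW2, hW2a, hW2b⟩ := cat (Nat.zero_le _) hTk hW (walk_dir hu σ (k / l * l) k) hWu
  refine ⟨W2, hW2, ?_⟩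
  intro i
  -- the count
  have hcount : {t | t ≤ k ∧ W2 t = i}.ncard ≤ 1 + ld W2 0 k i := by
    have hsub : {t | t ≤ k ∧ W2 t = i} ⊆
        ((insert 0 (((Finset.Ico 0 k).filter (fun t => W2 (t + 1) = i)).image (fun t => t + 1)) :
          Finset ℕ) : Set ℕ) := by
      rintro t ⟨ht1, ht2⟩
      rw [Finset.mem_coe, Finset.mem_insert, Finset.mem_image]
      rcases Nat.eq_zero_or_pos t with h | h
      · exact Or.inl h
      · refine Or.inr ⟨t - 1, ?_, by omega⟩
        rw [Finset.mem_filter, Finset.mem_Ico]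
        refine ⟨⟨Nat.zero_le _, by omega⟩, ?_⟩
        rw [Nat.sub_add_cancel h]
        exact ht2
    calc {t | t ≤ k ∧ W2 t = i}.ncard ≤ _ := Set.ncard_le_ncard hsub (Finset.finite_toSet _)
      _ = _ := Set.ncard_coe_finset _
      _ ≤ (((Finset.Ico 0 k).filter (fun t => W2 (t + 1) = i)).image (fun t => t + 1)).card + 1 :=
          Finset.card_insert_le _ _
      _ ≤ ld W2 0 k i + 1 := Nat.add_le_add_right Finset.card_image_le 1
      _ = 1 + ld W2 0 k i := Nat.add_comm _ _
  have hsplit : ld W2 0 k i ≤ ld W 0 (k / l * l) i + l := by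
    rw [ld_add W2 (Nat.zero_le _) hTk i, ld_congr (fun t _ ht => hW2a t ht) i]
    have := ld_le W2 (k / l * l) k i
    omega
  have hlog : β * (ld W 0 (k / l * l) i : ℝ) ≤ Real.log m + (k / l : ℕ) * X := by
    have h1 : Real.exp (β * (ld W 0 (k / l * l) i : ℝ)) ≤ m * Real.exp ((k / l : ℕ) * X) :=
      (Finset.single_le_sum (f := fun i => Real.exp (β * (ld W 0 (k / l * l) i : ℝ)))
        (fun j _ => (Real.exp_pos _).le) (Finset.mem_univ i)).trans hsum
    have h2 := Real.log_le_log (Real.exp_pos _) h1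
    rw [Real.log_exp, Real.log_mul (by linarith) (Real.exp_pos _).ne', Real.log_exp] at h2
    exact h2
  have hX2 : ((k / l : ℕ) : ℝ) * X ≤ β * ((1 + η) * k / (2 * d)) := by
    have h1 : X ≤ (1 + η1) * (β * l) * (1 + η1) / (2 * d) := by
      rw [hX]
      apply div_le_div_of_nonneg_right _ (by positivity)
      exact mul_le_mul_of_nonneg_right hG1 (by linarith)
    have h2 : ((k / l : ℕ) : ℝ) * l ≤ k := by exact_mod_cast hTk
    have h3 : (1 + η1) * (1 + η1) ≤ 1 + η := by
      rw [hη1] at *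
      nlinarith
    calc ((k / l : ℕ) : ℝ) * X ≤ ((k / l : ℕ) : ℝ) * ((1 + η1) * (β * l) * (1 + η1) / (2 * d)) :=
          mul_le_mul_of_nonneg_left h1 (by positivity)
      _ = β * ((1 + η1) * (1 + η1) * (((k / l : ℕ) : ℝ) * l) / (2 * d)) := by ring
      _ ≤ β * ((1 + η) * k / (2 * d)) := by
          apply mul_le_mul_of_nonneg_left _ hβp.le
          apply div_le_div_of_nonneg_right _ (by positivity)
          exact mul_le_mul h3 h2 (by positivity) (by linarith)
  have hfin : (ld W 0 (k / l * l) i : ℝ) ≤ Real.log m / β + (1 + η) * k / (2 * d) := by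
    have h1 : β * (ld W 0 (k / l * l) i : ℝ) ≤ β * (Real.log m / β + (1 + η) * k / (2 * d)) := by
      rw [mul_add, mul_div_cancel₀ _ hβp.ne']
      linarith
    exact le_of_mul_le_mul_left h1 hβp
  have hceil := Nat.le_ceil (Real.log m / β)
  have hc1 : ({t | t ≤ k ∧ W2 t = i}.ncard : ℝ) ≤ 1 + ((ld W 0 (k / l * l) i : ℝ) + l) := by
    have : {t | t ≤ k ∧ W2 t = i}.ncard ≤ 1 + (ld W 0 (k / l * l) i + l) := by omega
    exact_mod_cast this
  push_cast
  linarith

end Pool.Agent.Helper34.ST
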